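import Mathlib
import Pool.Agent.Lib.MP_6bc78b_nt.MS.P2.Iface

/-! Project MS, Part II, module RGC: a short factor and the weight. -/

set_option autoImplicit false

open Filter Topology ArithmeticFunction

namespace Pool.Agent.Lib.MP_6bc78b_nt.MS.P2.H62

lemma dv_nonneg (n : ℕ) : 0 ≤ dv n := Nat.cast_nonneg _

lemma one_le_dv (n : ℕ) (hn : 1 ≤ n) : 1 ≤ dv n := by
  unfold dv
  have : 0 < n.divisors.card := Finset.card_pos.2 ⟨1, Nat.one_mem_divisors.2 (by omega)⟩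
  exact_mod_cast this

lemma dv_le_of_dvd (d s : ℕ) (hs : 1 ≤ s) (h : d ∣ s) : dv d ≤ dv s := by
  unfold dv
  exact_mod_cast Finset.card_le_card (Nat.divisors_subset_of_dvd (by omega) h)

lemma dv_le (n : ℕ) : dv n ≤ n := by
  unfold dv
  exact_mod_cast Nat.card_divisors_le_self n

/-- Partial summation, with a central range and tails. -/
lemma inner_sum (habl : AblStatement) (F : ℕ → ℂ) (g : ℕ → ℝ) (Nz : ℕ) (X P E : ℝ)
    (hX : 0 ≤ X) (hP : 0 ≤ P) (hE : 0 ≤ E)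
    (hz : ∀ z ∈ Finset.Ioc 0 Nz,
      (‖∑ y ∈ Finset.Ioc 0 z, F y‖ * |g (z + 1) - g z| ≤ P ∧ (z : ℝ) ≤ X) ∨
        ‖∑ y ∈ Finset.Ioc 0 z, F y‖ * |g (z + 1) - g z| ≤ E)
    (hlast : ‖∑ y ∈ Finset.Ioc 0 Nz, F y‖ * |g (Nz + 1)| ≤ E) :
    ‖∑ z ∈ Finset.Ioc 0 Nz, F z * (g z : ℂ)‖ ≤ X * P + (Nz + 1) * E := by
  classical
  refine le_trans (habl.1 0 Nz F g) ?_
  have h1 : ∑ z ∈ Finset.Ioc 0 Nz, ‖∑ y ∈ Finset.Ioc 0 z, F y‖ * |g (z + 1) - g z| ≤
      ∑ z ∈ Finset.Ioc 0 Nz, ((if (z : ℝ) ≤ X then P else 0) + E) := by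
    refine Finset.sum_le_sum (fun z hzm => ?_)
    rcases hz z hzm with h | h
    · rw [if_pos h.2]; linarith [h.1]
    · split_ifs <;> linarith
  have h2 : ∑ z ∈ Finset.Ioc 0 Nz, (if (z : ℝ) ≤ X then P else 0) ≤ X * P := by
    rw [← Finset.sum_filter, Finset.sum_const, nsmul_eq_mul]
    refine mul_le_mul_of_nonneg_right ?_ hP
    have h3 : (Finset.Ioc 0 Nz).filter (fun z : ℕ => (z : ℝ) ≤ X) ⊆ Finset.Ioc 0 ⌊X⌋₊ := by
      intro z hz
      rw [Finset.mem_filter, Finset.mem_Ioc] at hz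
      rw [Finset.mem_Ioc]
      exact ⟨hz.1.1, Nat.le_floor hz.2⟩
    have h4 := Finset.card_le_card h3
    rw [Nat.card_Ioc, Nat.sub_zero] at h4
    calc (((Finset.Ioc 0 Nz).filter (fun z : ℕ => (z : ℝ) ≤ X)).card : ℝ) ≤ (⌊X⌋₊ : ℝ) := by
          exact_mod_cast h4
      _ ≤ X := Nat.floor_le hX
  rw [Finset.sum_add_distrib, Finset.sum_const, Nat.card_Ioc, Nat.sub_zero, nsmul_eq_mul] at h1
  linarith

/-- `VV` of a convolution, bounded by the inner sums. -/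
lemma VV_le (hspl : SplStatement) (j : ℕ) (T : ℝ) (hT : 1 ≤ T) (ρ c : ArithmeticFunction ℝ)
    (q s d : ℕ) (hd : 1 ≤ d) (hc : ∀ n : ℕ, c n ≠ 0 → (n : ℝ) ≤ T) (ψ : DirichletCharacter ℂ q) :
    ‖VV j T (ρ * c) (q * s) d ψ‖ ≤ ∑ d1 ∈ d.divisors, ∑ x ∈ Finset.Icc 1 ⌊T⌋₊,
      |c (d1 * x)| * ‖∑ z ∈ Finset.Ioc 0 (⌊T ^ 2⌋₊ / (d * x)),
        (((ρ (d / d1 * z) : ℝ) : ℂ) * ψ (z : ZMod q)) *
          ((wt j T ((d : ℝ) * x / ((q * s : ℕ) : ℝ) * z) : ℝ) : ℂ)‖ := by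
  classical
  set N := ⌊T ^ 2⌋₊ with hNdef
  have h1 : VV j T (ρ * c) (q * s) d ψ = ∑ n ∈ (Finset.Icc 1 N).filter (fun n => d ∣ n),
      (((c * ρ) n : ℝ) : ℂ) * (((wt j T ((n : ℝ) / ((q * s : ℕ) : ℝ)) : ℝ) : ℂ) *
        ψ (n : ZMod q)) := by
    unfold VV
    rw [mul_comm c ρ]
    refine Finset.sum_congr rfl (fun n _ => ?_)
    push_cast; ring
  rw [h1, hspl d N hd c ρ]
  refine le_trans (norm_sum_le _ _) (Finset.sum_le_sum (fun d1 hd1 => ?_))
  have hd1' := Nat.mem_divisors.1 hd1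
  have hd1p : 1 ≤ d1 := Nat.pos_of_mem_divisors hd1
  set d2 := d / d1 with hd2
  refine le_trans (norm_sum_le _ _) ?_
  set t : ℕ → ℝ := fun x => |c (d1 * x)| * ‖∑ z ∈ Finset.Ioc 0 (N / (d * x)),
        (((ρ (d2 * z) : ℝ) : ℂ) * ψ (z : ZMod q)) *
          ((wt j T ((d : ℝ) * x / ((q * s : ℕ) : ℝ) * z) : ℝ) : ℂ)‖ with ht
  have ht0 : ∀ x, 0 ≤ t x := fun x => by rw [ht]; positivity
  have hTN : ⌊T⌋₊ ≤ N := Nat.floor_le_floor (by nlinarith)
  have hzero : ∀ x ∈ Finset.Icc 1 N, x ∉ Finset.Icc 1 ⌊T⌋₊ → t x = 0 := by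
    intro x hx hx'
    rw [Finset.mem_Icc] at hx hx'
    have hxT : ⌊T⌋₊ < x := by omega
    have : c (d1 * x) = 0 := by
      by_contra hne
      have h2 := hc _ hne
      have h3 : d1 * x ≤ ⌊T⌋₊ := Nat.le_floor h2
      have : x ≤ d1 * x := Nat.le_mul_of_pos_left x (by omega)
      omega
    rw [ht]; simp only [this, abs_zero, zero_mul]
  calc ∑ x ∈ (Finset.Icc 1 N).filter (fun x => Nat.Coprime x d2),
        ‖∑ z ∈ (Finset.Icc 1 N).filter (fun z => d * x * z ≤ N),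
          ((c (d1 * x) : ℝ) : ℂ) * ((ρ (d2 * z) : ℝ) : ℂ) *
            (((wt j T (((d * x * z : ℕ) : ℝ) / ((q * s : ℕ) : ℝ)) : ℝ) : ℂ) *
              ψ ((d * x * z : ℕ) : ZMod q))‖
      ≤ ∑ x ∈ (Finset.Icc 1 N).filter (fun x => Nat.Coprime x d2), t x := by
        refine Finset.sum_le_sum (fun x hx => ?_)
        rw [Finset.mem_filter, Finset.mem_Icc] at hx
        have hdx : 0 < d * x := Nat.mul_pos (by omega) (by omega)
        have hset : (Finset.Icc 1 N).filter (fun z => d * x * z ≤ N) =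
            Finset.Ioc 0 (N / (d * x)) := by
          ext z
          rw [Finset.mem_filter, Finset.mem_Icc, Finset.mem_Ioc, Nat.le_div_iff_mul_le hdx,
            mul_comm z (d * x)]
          constructor
          · rintro ⟨⟨h1, _⟩, h3⟩; exact ⟨by omega, h3⟩
          · rintro ⟨h1, h2⟩
            refine ⟨⟨by omega, le_trans ?_ h2⟩, h2⟩
            exact Nat.le_mul_of_pos_left z hdx
        rw [hset]
        have e : ∑ z ∈ Finset.Ioc 0 (N / (d * x)),
            ((c (d1 * x) : ℝ) : ℂ) * ((ρ (d2 * z) : ℝ) : ℂ) *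
            (((wt j T (((d * x * z : ℕ) : ℝ) / ((q * s : ℕ) : ℝ)) : ℝ) : ℂ) *
              ψ ((d * x * z : ℕ) : ZMod q)) =
            (((c (d1 * x) : ℝ) : ℂ) * ψ ((d * x : ℕ) : ZMod q)) *
            ∑ z ∈ Finset.Ioc 0 (N / (d * x)),
              (((ρ (d2 * z) : ℝ) : ℂ) * ψ (z : ZMod q)) *
              ((wt j T ((d : ℝ) * x / ((q * s : ℕ) : ℝ) * z) : ℝ) : ℂ) := by
          rw [Finset.mul_sum]
          refine Finset.sum_congr rfl (fun z _ => ?_)
          have e1 : (((d * x * z : ℕ) : ℝ) / ((q * s : ℕ) : ℝ)) =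
              (d : ℝ) * x / ((q * s : ℕ) : ℝ) * z := by
            push_cast; ring
          have e2 : ψ ((d * x * z : ℕ) : ZMod q) = ψ ((d * x : ℕ) : ZMod q) * ψ (z : ZMod q) := by
            rw [Nat.cast_mul, map_mul]
          rw [e1, e2]; ring
        rw [e, norm_mul, norm_mul, Complex.norm_real, Real.norm_eq_abs]
        refine mul_le_mul_of_nonneg_right ?_ (norm_nonneg _)
        calc |c (d1 * x)| * ‖ψ ((d * x : ℕ) : ZMod q)‖ ≤ |c (d1 * x)| * 1 :=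
              mul_le_mul_of_nonneg_left (DirichletCharacter.norm_le_one ψ _) (abs_nonneg _)
          _ = |c (d1 * x)| := mul_one _
    _ ≤ ∑ x ∈ Finset.Icc 1 N, t x :=
        Finset.sum_le_sum_of_subset_of_nonneg (Finset.filter_subset _ _) (fun x _ _ => ht0 x)
    _ = ∑ x ∈ Finset.Icc 1 ⌊T⌋₊, t x := by
        rw [← Finset.sum_subset (Finset.Icc_subset_Icc_right hTN) hzero]

/-- Crude bound from `Tb`. -/
lemma tb_crude (ρ : ArithmeticFunction ℝ) (K : ℕ)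
    (hK : ∀ n : ℕ, |ρ n| ≤ (K : ℝ) * (1 + Real.log n) ^ K * dv n ^ K) (T : ℝ) (hT : 2 ≤ T)
    (hTK : (K : ℝ) ≤ T) (n : ℕ) (hn : (n : ℝ) ≤ T ^ 3) : |ρ n| ≤ T ^ (7 * K + 1) := by
  have hT0 : 0 ≤ T := by linarith
  rcases Nat.eq_zero_or_pos n with h0 | hpos
  · subst h0
    rw [ArithmeticFunction.map_zero, abs_zero]; positivity
  have hn1 : (1 : ℝ) ≤ n := by exact_mod_cast hpos
  have hlog0 : 0 ≤ Real.log n := Real.log_nonneg hn1
  have hlog : 1 + Real.log n ≤ T ^ 4 := by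
    have h1 := Real.log_le_sub_one_of_pos (show (0 : ℝ) < n by linarith)
    calc 1 + Real.log n ≤ n := by linarith
      _ ≤ T ^ 3 := hn
      _ ≤ T ^ 4 := pow_le_pow_right₀ (by linarith) (by norm_num)
  have hdv : dv n ≤ T ^ 3 := le_trans (dv_le n) hn
  calc |ρ n| ≤ (K : ℝ) * (1 + Real.log n) ^ K * dv n ^ K := hK n
    _ ≤ T * (T ^ 4) ^ K * (T ^ 3) ^ K := by
        have e1 : (1 + Real.log n) ^ K ≤ (T ^ 4) ^ K := pow_le_pow_left₀ (by linarith) hlog K
        have e2 : dv n ^ K ≤ (T ^ 3) ^ K := pow_le_pow_left₀ (dv_nonneg n) hdv K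
        have e3 : 0 ≤ dv n ^ K := pow_nonneg (dv_nonneg n) K
        exact mul_le_mul (mul_le_mul hTK e1 (by positivity) hT0) e2 e3 (by positivity)
    _ = T ^ (7 * K + 1) := by rw [← pow_mul, ← pow_mul]; ring

/-- The inner sum. -/
lemma inner (habl : AblStatement) (j : ℕ) (T κ D : ℝ) (Kt Kr B' n0 : ℕ)
    (ρ : ArithmeticFunction ℝ) (q s d d2 x : ℕ) (ψ : DirichletCharacter ℂ q)
    (hT : 64 ≤ T) (hκ0 : 0 < κ) (hD : 0 ≤ D)
    (hKt : ∀ n : ℕ, |ρ n| ≤ (Kt : ℝ) * (1 + Real.log n) ^ Kt * dv n ^ Kt) (hTK : (Kt : ℝ) ≤ T)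
    (hw2 : ∀ (c : ℝ) (x : ℕ), 0 < c → 1 ≤ x → T / 1000 ≤ c * x → c * (x + 1) ≤ 1000 * T →
      |wt j T (c * (x + 1)) - wt j T (c * x)| ≤ D / x)
    (htail : ∀ r : ℝ, 1 / T ≤ r → (r ≤ T / 16 ∨ T / 2 ≤ r) → |wt j T r| ≤ 1 / T ^ n0)
    (hreg : ∀ z : ℕ, T ^ κ ≤ z → ‖∑ y ∈ Finset.Ioc 0 z, ((ρ (d2 * y) : ℝ) : ℂ) * ψ (y : ZMod q)‖ ≤
      z * dv s ^ Kr / Real.log z ^ B')
    (hqs : ((q * s : ℕ) : ℝ) ≤ T / 8) (hq : 1 ≤ q) (hs : 1 ≤ s) (hd : 1 ≤ d) (hx : 1 ≤ x)
    (hd2 : (d2 : ℝ) ≤ T) (hlow : T ^ κ * ((d : ℝ) * x / ((q * s : ℕ) : ℝ)) ≤ T / 1000) :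
    ‖∑ z ∈ Finset.Ioc 0 (⌊T ^ 2⌋₊ / (d * x)),
        (((ρ (d2 * z) : ℝ) : ℂ) * ψ (z : ZMod q)) *
          ((wt j T ((d : ℝ) * x / ((q * s : ℕ) : ℝ) * z) : ℝ) : ℂ)‖ ≤
      (1000 * T / ((d : ℝ) * x / ((q * s : ℕ) : ℝ))) * (D * dv s ^ Kr / (κ * Real.log T) ^ B') +
        T ^ 3 * (T ^ (7 * Kt + 3) * (2 / T ^ n0)) := by
  have hT0 : (0 : ℝ) < T := by linarith
  set N := ⌊T ^ 2⌋₊ with hN
  set Nz := N / (d * x) with hNz
  set c0 : ℝ := (d : ℝ) * x / ((q * s : ℕ) : ℝ) with hc0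
  have hqs0 : (0 : ℝ) < ((q * s : ℕ) : ℝ) := by
    exact_mod_cast Nat.mul_pos (by omega) (by omega)
  have hdx1 : (1 : ℝ) ≤ (d : ℝ) * x := by
    have : 1 ≤ d * x := Nat.mul_pos (by omega) (by omega)
    exact_mod_cast this
  have hc0pos : 0 < c0 := by positivity
  have hc0T : 1 / T ≤ c0 := by
    rw [hc0, div_le_div_iff₀ hT0 hqs0]
    calc 1 * ((q * s : ℕ) : ℝ) ≤ T := by linarith
      _ = 1 * T := (one_mul T).symm
      _ ≤ (d : ℝ) * x * T := mul_le_mul_of_nonneg_right hdx1 hT0.le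
  have hdv0 : 0 ≤ dv s := dv_nonneg s
  have hlogT : 0 < Real.log T := Real.log_pos (by linarith)
  set P := D * dv s ^ Kr / (κ * Real.log T) ^ B' with hP
  have hP0 : 0 ≤ P := by positivity
  have hNzN : (Nz : ℝ) ≤ T ^ 2 := by
    calc (Nz : ℝ) ≤ (N : ℝ) := by exact_mod_cast Nat.div_le_self _ _
      _ ≤ T ^ 2 := Nat.floor_le (by positivity)
  -- crude bound of the partial sums
  have hcrude : ∀ z : ℕ, z ≤ Nz →
      ‖∑ y ∈ Finset.Ioc 0 z, ((ρ (d2 * y) : ℝ) : ℂ) * ψ (y : ZMod q)‖ ≤ T ^ (7 * Kt + 3) := by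
    intro z hz
    have hzT : (z : ℝ) ≤ T ^ 2 := le_trans (by exact_mod_cast hz) hNzN
    calc ‖∑ y ∈ Finset.Ioc 0 z, ((ρ (d2 * y) : ℝ) : ℂ) * ψ (y : ZMod q)‖
        ≤ ∑ y ∈ Finset.Ioc 0 z, T ^ (7 * Kt + 1) := by
          refine le_trans (norm_sum_le _ _) (Finset.sum_le_sum (fun y hy => ?_))
          rw [Finset.mem_Ioc] at hy
          rw [norm_mul, Complex.norm_real, Real.norm_eq_abs]
          have h1 : |ρ (d2 * y)| ≤ T ^ (7 * Kt + 1) := by
            apply tb_crude ρ Kt hKt T (by linarith) hTK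
            push_cast
            calc (d2 : ℝ) * y ≤ T * T ^ 2 := by
                  refine mul_le_mul hd2 ?_ (by positivity) hT0.le
                  exact le_trans (by exact_mod_cast hy.2) hzT
              _ = T ^ 3 := by ring
          calc |ρ (d2 * y)| * ‖ψ (y : ZMod q)‖ ≤ T ^ (7 * Kt + 1) * 1 :=
                mul_le_mul h1 (DirichletCharacter.norm_le_one ψ _) (norm_nonneg _) (by positivity)
            _ = _ := mul_one _
      _ = z * T ^ (7 * Kt + 1) := by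
          rw [Finset.sum_const, Nat.card_Ioc, Nat.sub_zero, nsmul_eq_mul]
      _ ≤ T ^ 2 * T ^ (7 * Kt + 1) := mul_le_mul_of_nonneg_right hzT (by positivity)
      _ = T ^ (7 * Kt + 3) := by ring
  set E := T ^ (7 * Kt + 3) * (2 / T ^ n0) with hE
  have hE0 : 0 ≤ E := by positivity
  have htail2 : ∀ r r' : ℝ, 1 / T ≤ r → 1 / T ≤ r' → (r ≤ T / 16 ∨ T / 2 ≤ r) →
      (r' ≤ T / 16 ∨ T / 2 ≤ r') → |wt j T r' - wt j T r| ≤ 2 / T ^ n0 := by
    intro r r' h1 h2 h3 h4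
    calc |wt j T r' - wt j T r| ≤ |wt j T r'| + |wt j T r| := abs_sub _ _
      _ ≤ 1 / T ^ n0 + 1 / T ^ n0 := add_le_add (htail r' h2 h4) (htail r h1 h3)
      _ = 2 / T ^ n0 := by ring
  have hmain := inner_sum habl (fun z => ((ρ (d2 * z) : ℝ) : ℂ) * ψ (z : ZMod q))
    (fun z => wt j T (c0 * z)) Nz (1000 * T / c0) P E (by positivity) hP0 hE0
    (by
      intro z hz
      rw [Finset.mem_Ioc] at hz
      have hz1 : (1 : ℝ) ≤ z := by exact_mod_cast hz.1
      have hr1 : 1 / T ≤ c0 * z := le_trans hc0T (le_mul_of_one_le_right hc0pos.le hz1)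
      have hr2 : 1 / T ≤ c0 * ((z + 1 : ℕ) : ℝ) := by
        refine le_trans hc0T (le_mul_of_one_le_right hc0pos.le ?_)
        push_cast; linarith
      have hle : c0 * z ≤ c0 * ((z + 1 : ℕ) : ℝ) := by
        apply mul_le_mul_of_nonneg_left _ hc0pos.le
        push_cast; linarith
      have hle2 : c0 * ((z + 1 : ℕ) : ℝ) ≤ 2 * (c0 * z) := by
        have : c0 * 1 ≤ c0 * z := mul_le_mul_of_nonneg_left hz1 hc0pos.le
        push_cast
        linarith
      rcases le_or_gt (c0 * ((z + 1 : ℕ) : ℝ)) (T / 16) with hA | hA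
      · right
        exact mul_le_mul (hcrude z hz.2) (htail2 _ _ hr1 hr2 (Or.inl (le_trans hle hA)) (Or.inl hA))
          (abs_nonneg _) (by positivity)
      · rcases le_or_gt (T / 2) (c0 * z) with hB | hB
        · right
          exact mul_le_mul (hcrude z hz.2) (htail2 _ _ hr1 hr2 (Or.inr hB)
            (Or.inr (le_trans hB hle))) (abs_nonneg _) (by positivity)
        · left
          have hcen1 : T / 1000 ≤ c0 * z := by linarith
          have hcen2 : c0 * ((z + 1 : ℕ) : ℝ) ≤ 1000 * T := by linarith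
          constructor
          · have hzκ : T ^ κ ≤ z := by
              have h1 : T ^ κ * c0 ≤ z * c0 := by
                rw [mul_comm (z : ℝ) c0]; exact le_trans hlow hcen1
              exact le_of_mul_le_mul_right h1 hc0pos
            have hzpos : (0 : ℝ) < z := by linarith
            have hlogz : κ * Real.log T ≤ Real.log z := by
              rw [← Real.log_rpow hT0]
              exact Real.log_le_log (Real.rpow_pos_of_pos hT0 κ) hzκ
            have h1 := hreg z hzκ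
            have h2 := hw2 c0 z hc0pos hz.1 hcen1 (by push_cast at hcen2; exact hcen2)
            have hlz : 0 < Real.log z := lt_of_lt_of_le (by positivity) hlogz
            calc ‖∑ y ∈ Finset.Ioc 0 z, ((ρ (d2 * y) : ℝ) : ℂ) * ψ (y : ZMod q)‖ *
                  |wt j T (c0 * ((z + 1 : ℕ) : ℝ)) - wt j T (c0 * z)|
                ≤ (z * dv s ^ Kr / Real.log z ^ B') * (D / z) := by
                  refine mul_le_mul h1 ?_ (abs_nonneg _) (by positivity)
                  rw [Nat.cast_add z 1, Nat.cast_one]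
                  exact h2
              _ = D * dv s ^ Kr / Real.log z ^ B' := by
                  field_simp
              _ ≤ P := by
                  rw [hP]
                  apply div_le_div_of_nonneg_left (by positivity) (by positivity)
                  exact pow_le_pow_left₀ (by positivity) hlogz B'
          · rw [le_div_iff₀ hc0pos, mul_comm]
            linarith)
    (by
      have hfl : T ^ 2 < (N : ℝ) + 1 := Nat.lt_floor_add_one _
      have hdxpos : 0 < d * x := Nat.mul_pos (by omega) (by omega)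
      have h1 : N < (Nz + 1) * (d * x) := by
        rw [hNz, mul_comm]
        exact Nat.lt_mul_div_succ N hdxpos
      have h2 : (N : ℝ) + 1 ≤ ((Nz : ℝ) + 1) * ((d : ℝ) * x) := by exact_mod_cast h1
      have h3 : T / 2 ≤ c0 * ((Nz + 1 : ℕ) : ℝ) := by
        have e : c0 * ((Nz + 1 : ℕ) : ℝ) = ((Nz : ℝ) + 1) * ((d : ℝ) * x) / ((q * s : ℕ) : ℝ) := by
          rw [hc0]; push_cast; ring
        rw [e, le_div_iff₀ hqs0]
        have : T / 2 * ((q * s : ℕ) : ℝ) ≤ T / 2 * (T / 8) :=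
          mul_le_mul_of_nonneg_left hqs (by positivity)
        nlinarith
      have h4 : 1 / T ≤ c0 * ((Nz + 1 : ℕ) : ℝ) := by
        refine le_trans hc0T (le_mul_of_one_le_right hc0pos.le ?_)
        push_cast
        have : (0 : ℝ) ≤ Nz := Nat.cast_nonneg _
        linarith
      have h5 := htail _ h4 (Or.inr h3)
      calc ‖∑ y ∈ Finset.Ioc 0 Nz, ((ρ (d2 * y) : ℝ) : ℂ) * ψ (y : ZMod q)‖ *
            |wt j T (c0 * ((Nz + 1 : ℕ) : ℝ))| ≤ T ^ (7 * Kt + 3) * (2 / T ^ n0) := by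
            refine mul_le_mul (hcrude Nz le_rfl) (le_trans h5 ?_) (abs_nonneg _) (by positivity)
            apply div_le_div_of_nonneg_right _ (by positivity)
            norm_num
        _ = E := rfl)
  refine le_trans hmain ?_
  have hNz3 : (Nz : ℝ) + 1 ≤ T ^ 3 := by
    have : T ^ 2 * 64 ≤ T ^ 2 * T := mul_le_mul_of_nonneg_left hT (by positivity)
    nlinarith
  have := mul_le_mul_of_nonneg_right hNz3 hE0
  linarith

/-- Module RGC. -/
theorem rgc (hdiv : DivStatement) (hspl : SplStatement) (habl : AblStatement)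
    (hwtd : WtdStatement) (hwtt : WttStatement) : RgcStatement := by
  intro th lam hth0 hth hlam0 hlam j ρ hTb hReg c hDB hsup
  obtain ⟨Kt, hKt⟩ := hTb
  obtain ⟨Kr, hReg⟩ := hReg
  obtain ⟨Kc, hKc⟩ := hDB
  obtain ⟨C, M, hC, hwd⟩ := hwtd j
  refine ⟨Kr + Kc + 1, ?_⟩
  intro A B
  set κ : ℝ := (1 - lam) / 2 with hκ
  have hκ0 : 0 < κ := by rw [hκ]; linarith
  set H : ℕ := ⌈1 / κ⌉₊ with hH
  have hκH : 1 ≤ κ * H := by
    have h1 : 1 / κ ≤ (H : ℝ) := Nat.le_ceil _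
    rw [div_le_iff₀ hκ0] at h1
    linarith
  obtain ⟨Ec, hEc⟩ : ∃ Ec : ℕ, Ec = 2 ^ Kc := ⟨_, rfl⟩
  set B' : ℕ := B + A + Kc + M + Ec + 1 with hB'
  set n0 : ℕ := 2 * Kc + 7 * Kt + 10 with hn0
  obtain ⟨x0, hx0⟩ := eventually_atTop.1 (hReg (A + 1) B' H)
  set G : ℝ := 1000 * C * Kc * 2 ^ Ec / κ ^ B' with hG
  have hG0 : 0 ≤ G := by positivity
  have ev1 : ∀ᶠ T : ℝ in atTop, x0 ≤ T ^ κ :=
    (tendsto_rpow_atTop hκ0).eventually_ge_atTop x0
  have ev2 : ∀ᶠ T : ℝ in atTop, T ^ κ * T ^ lam ≤ T / 1000 := by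
    have h1 : Tendsto (fun T : ℝ => T ^ κ) atTop atTop := tendsto_rpow_atTop hκ0
    filter_upwards [h1.eventually_ge_atTop 1000, eventually_gt_atTop 0] with T hT hT0
    have e : T = T ^ κ * (T ^ κ * T ^ lam) := by
      rw [← Real.rpow_add hT0, ← Real.rpow_add hT0]
      have : κ + (κ + lam) = 1 := by rw [hκ]; ring
      rw [this, Real.rpow_one]
    have h0 : 0 ≤ T ^ κ * T ^ lam := by positivity
    rw [le_div_iff₀ (by norm_num)]
    calc T ^ κ * T ^ lam * 1000 ≤ T ^ κ * T ^ lam * T ^ κ := mul_le_mul_of_nonneg_left hT h0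
      _ = T := by rw [mul_comm]; exact e.symm
  have ev3 : ∀ᶠ T : ℝ in atTop, 1 ≤ κ ^ (A + 1) * Real.log T ∧ 2 * G ≤ Real.log T := by
    have h1 : Tendsto (fun T : ℝ => κ ^ (A + 1) * Real.log T) atTop atTop :=
      Real.tendsto_log_atTop.const_mul_atTop (by positivity)
    exact (h1.eventually_ge_atTop 1).and (Real.tendsto_log_atTop.eventually_ge_atTop _)
  have ev4 : ∀ᶠ T : ℝ in atTop, 4 * Real.log T ^ B ≤ T := by
    have h1 : (fun T : ℝ => Real.log T ^ B) =o[atTop] (fun T : ℝ => T) := by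
      have := Real.isLittleO_pow_log_id_atTop (n := B)
      exact this
    have h2 := h1.bound (show (0 : ℝ) < 1 / 4 by norm_num)
    filter_upwards [h2, eventually_ge_atTop 3] with T hT hT3
    rw [Real.norm_eq_abs, Real.norm_eq_abs, abs_of_nonneg (by linarith : (0 : ℝ) ≤ T)] at hT
    have := le_abs_self (Real.log T ^ B)
    linarith
  filter_upwards [hwd, hwtt j (n0 + 1), ev1, ev2, ev3, ev4, eventually_ge_atTop 64,
    eventually_ge_atTop (Kt : ℝ), eventually_ge_atTop (Kc : ℝ),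
    eventually_ge_atTop ((2 : ℝ) ^ (n0 + 1))] with T hwdT hwtT h1 h2 h3 h4 h64 hTKt hTKc hT2
  intro q s d hq hqA hqs hsq hds ψ hψ
  obtain ⟨-, hw2, -⟩ := hwdT
  obtain ⟨ht1, ht2⟩ := hwtT
  set L := Real.log T with hL
  have hT0 : (0 : ℝ) < T := by linarith
  have hL1 : 1 ≤ L := by
    rw [hL, Real.le_log_iff_exp_le hT0]
    have := Real.exp_one_lt_d9
    linarith
  have hL0 : 0 < L := by linarith
  have hs1 : 1 ≤ s := Nat.pos_of_ne_zero hsq.ne_zero
  have hd1 : 1 ≤ d := Nat.pos_of_dvd_of_pos hds hs1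
  have hs1R : (1 : ℝ) ≤ s := by exact_mod_cast hs1
  have hq1R : (1 : ℝ) ≤ q := by exact_mod_cast (by omega : 1 ≤ q)
  have hd0R : (0 : ℝ) < d := by exact_mod_cast hd1
  have hTth : T ^ th ≤ T / 8 := by
    calc T ^ th ≤ T ^ (1 / 2 : ℝ) := Real.rpow_le_rpow_of_exponent_le (by linarith) hth.le
      _ = Real.sqrt T := (Real.sqrt_eq_rpow T).symm
      _ ≤ T / 8 := by
          rw [Real.sqrt_le_left (by positivity)]
          nlinarith
  have hqsT : ((q * s : ℕ) : ℝ) ≤ T / 8 := le_trans hqs hTth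
  have hsT : (s : ℝ) ≤ T := by
    have : (s : ℝ) ≤ ((q * s : ℕ) : ℝ) := by
      push_cast
      exact le_mul_of_one_le_left (by positivity) hq1R
    linarith
  have hTlam : T ^ lam ≤ T := by
    calc T ^ lam ≤ T ^ (1 : ℝ) := Real.rpow_le_rpow_of_exponent_le (by linarith) hlam.le
      _ = T := Real.rpow_one T
  have hTT2 : T ≤ T ^ 2 := by nlinarith
  have hψ1 : ψ ≠ 1 := by
    intro h
    rw [h] at hψ
    have h5 : DirichletCharacter.conductor (1 : DirichletCharacter ℂ q) = q := hψ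
    haveI : NeZero q := ⟨by omega⟩
    rw [DirichletCharacter.conductor_one] at h5
    omega
  -- tails
  have htail : ∀ r : ℝ, 1 / T ≤ r → (r ≤ T / 16 ∨ T / 2 ≤ r) → |wt j T r| ≤ 1 / T ^ n0 := by
    intro r hr hor
    rcases hor with hor | hor
    · refine le_trans (ht1 r hr hor) ?_
      apply one_div_le_one_div_of_le (by positivity)
      exact pow_le_pow_right₀ (by linarith) (by omega)
    · refine le_trans (ht2 r hor) ?_
      apply one_div_le_one_div_of_le (by positivity)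
      calc T ^ n0 = T ^ (n0 + 1) / T := by
            rw [eq_div_iff hT0.ne']
            exact (pow_succ T n0).symm
        _ ≤ T ^ (n0 + 1) / 2 ^ (n0 + 1) := div_le_div_of_nonneg_left (by positivity)
            (by positivity) hT2
        _ = (T / 2) ^ (n0 + 1) := by rw [div_pow]
        _ ≤ r ^ (n0 + 1) := pow_le_pow_left₀ (by positivity) hor _
  -- the sum over `d1`
  set D := C * L ^ M with hD
  have hD0 : 0 ≤ D := by positivity
  set P := D * dv s ^ Kr / (κ * L) ^ B' with hP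
  have hdvs0 : 0 ≤ dv s := dv_nonneg s
  have hdvs1 : 1 ≤ dv s := one_le_dv s hs1
  have hP0 : 0 ≤ P := by positivity
  set R := T ^ 3 * (T ^ (7 * Kt + 3) * (2 / T ^ n0)) with hR
  have hR0 : 0 ≤ R := by positivity
  have hsup' : ∀ n : ℕ, c T n ≠ 0 → (n : ℝ) ≤ T ^ lam := fun n hn => hsup T (by linarith) n hn
  have hVV := VV_le hspl j T (by linarith) ρ (c T) q s d hd1
    (fun n hn => le_trans (hsup' n hn) hTlam) ψ
  set W := 1000 * T * ((q : ℝ) * s / d) * P * (Kc * L ^ Kc * dv s ^ Kc) with hW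
  have hW0 : 0 ≤ W := by positivity
  have hx : ∀ d1 ∈ d.divisors, ∀ x ∈ Finset.Icc 1 ⌊T⌋₊,
      |c T (d1 * x)| * ‖∑ z ∈ Finset.Ioc 0 (⌊T ^ 2⌋₊ / (d * x)),
        (((ρ (d / d1 * z) : ℝ) : ℂ) * ψ (z : ZMod q)) *
          ((wt j T ((d : ℝ) * x / ((q * s : ℕ) : ℝ) * z) : ℝ) : ℂ)‖ ≤
        W * (dv x ^ Kc / x) + T ^ (2 * Kc + 1) * R := by
    intro d1 hd1m x hxm
    rw [Finset.mem_Icc] at hxm
    have hd1' := Nat.mem_divisors.1 hd1m
    have hd1p : 1 ≤ d1 := Nat.pos_of_mem_divisors hd1m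
    have hd2p : 1 ≤ d / d1 := Nat.div_pos (Nat.le_of_dvd (by omega) hd1'.1) (by omega)
    have hdd : d1 * (d / d1) = d := Nat.mul_div_cancel' hd1'.1
    have hd2s : d / d1 ∣ s := dvd_trans (Nat.div_dvd_of_dvd hd1'.1) hds
    set d2 := d / d1 with hd2
    have hx1R : (1 : ℝ) ≤ x := by exact_mod_cast hxm.1
    have hdvx : 0 ≤ dv x := dv_nonneg x
    by_cases hc0 : c T (d1 * x) = 0
    · rw [hc0, abs_zero, zero_mul]; positivity
    have hd1x : ((d1 * x : ℕ) : ℝ) ≤ T ^ lam := hsup' _ hc0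
    have hcb : |c T (d1 * x)| ≤ Kc * L ^ Kc * dv (d1 * x) ^ Kc :=
      hKc T (by linarith) (d1 * x) (by linarith)
    have hd2T : (d2 : ℝ) ≤ s := by exact_mod_cast Nat.le_of_dvd hs1 hd2s
    have hddR : (d1 : ℝ) * d2 = d := by exact_mod_cast hdd
    have hqspos : (0 : ℝ) < ((q * s : ℕ) : ℝ) := by push_cast; positivity
    have hc0le : (d : ℝ) * x / ((q * s : ℕ) : ℝ) ≤ T ^ lam := by
      rw [div_le_iff₀ hqspos]
      push_cast at hd1x ⊢
      calc (d : ℝ) * x = ((d1 : ℝ) * x) * d2 := by rw [← hddR]; ring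
        _ ≤ T ^ lam * s := mul_le_mul hd1x hd2T (by positivity) (by positivity)
        _ ≤ T ^ lam * (q * s) := by
            apply mul_le_mul_of_nonneg_left _ (by positivity)
            exact le_mul_of_one_le_left (by positivity) hq1R
    have hlow : T ^ κ * ((d : ℝ) * x / ((q * s : ℕ) : ℝ)) ≤ T / 1000 :=
      le_trans (mul_le_mul_of_nonneg_left hc0le (by positivity)) h2
    have hreg : ∀ z : ℕ, T ^ κ ≤ z →
        ‖∑ y ∈ Finset.Ioc 0 z, ((ρ (d2 * y) : ℝ) : ℂ) * ψ (y : ZMod q)‖ ≤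
        z * dv s ^ Kr / Real.log z ^ B' := by
      intro z hz
      have hTκ0 : 0 < T ^ κ := Real.rpow_pos_of_pos hT0 κ
      have hTκ1 : 1 ≤ T ^ κ := Real.one_le_rpow (by linarith) hκ0.le
      have hlogz : κ * L ≤ Real.log z := by
        rw [hL, ← Real.log_rpow hT0]
        exact Real.log_le_log hTκ0 hz
      have hκL : 0 < κ * L := by positivity
      have hqz : (q : ℝ) ≤ Real.log z ^ (A + 1) := by
        calc (q : ℝ) ≤ L ^ A := hqA
          _ = 1 * L ^ A := (one_mul _).symm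
          _ ≤ (κ ^ (A + 1) * L) * L ^ A := mul_le_mul_of_nonneg_right h3.1 (by positivity)
          _ = (κ * L) ^ (A + 1) := by rw [mul_pow]; ring
          _ ≤ Real.log z ^ (A + 1) := pow_le_pow_left₀ hκL.le hlogz _
      have hzH : T ≤ (z : ℝ) ^ H := by
        calc T = T ^ (1 : ℝ) := (Real.rpow_one T).symm
          _ ≤ T ^ (κ * H) := Real.rpow_le_rpow_of_exponent_le (by linarith) hκH
          _ = (T ^ κ) ^ H := by rw [Real.rpow_mul hT0.le, Real.rpow_natCast]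
          _ ≤ (z : ℝ) ^ H := pow_le_pow_left₀ hTκ0.le hz H
      have h5 := hx0 (z : ℝ) (le_trans h1 hz) q hq hqz ψ hψ1 d2 1
        (hsq.squarefree_of_dvd hd2s) le_rfl (by linarith) (by
          rw [Nat.cast_one]; linarith)
      rw [Nat.floor_natCast] at h5
      have e1 : (Finset.Icc 1 z).filter (fun r => Nat.Coprime r 1) = Finset.Ioc 0 z := by
        ext r
        rw [Finset.mem_filter, Finset.mem_Icc, Finset.mem_Ioc]
        constructor
        · rintro ⟨⟨h, h'⟩, _⟩; exact ⟨by omega, h'⟩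
        · rintro ⟨h, h'⟩; exact ⟨⟨by omega, h'⟩, Nat.coprime_one_right r⟩
      rw [e1] at h5
      refine le_trans h5 ?_
      have hdv1 : dv 1 = 1 := by simp [dv]
      rw [hdv1, one_pow, mul_one]
      have hlz : 0 < Real.log z := by linarith
      apply div_le_div_of_nonneg_right _ (by positivity)
      apply mul_le_mul_of_nonneg_left _ (by positivity)
      exact pow_le_pow_left₀ (dv_nonneg _) (dv_le_of_dvd d2 s hs1 hd2s) _
    have hin := inner habl j T κ D Kt Kr B' n0 ρ q s d d2 x ψ h64 hκ0 hD0 hKt hTKt hw2 htail hreg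
      hqsT (by omega) hs1 hd1 hxm.1 (by linarith) hlow
    -- combine
    have hdvd1 : dv (d1 * x) ≤ dv s * dv x := by
      refine le_trans (hdiv.1 d1 x) ?_
      exact mul_le_mul_of_nonneg_right (dv_le_of_dvd d1 s hs1 (dvd_trans hd1'.1 hds)) hdvx
    have hb1 : |c T (d1 * x)| ≤ Kc * L ^ Kc * dv s ^ Kc * dv x ^ Kc := by
      calc |c T (d1 * x)| ≤ Kc * L ^ Kc * dv (d1 * x) ^ Kc := hcb
        _ ≤ Kc * L ^ Kc * (dv s * dv x) ^ Kc := by
            apply mul_le_mul_of_nonneg_left _ (by positivity)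
            exact pow_le_pow_left₀ (dv_nonneg _) hdvd1 _
        _ = Kc * L ^ Kc * dv s ^ Kc * dv x ^ Kc := by rw [mul_pow]; ring
    have hb2 : |c T (d1 * x)| ≤ T ^ (2 * Kc + 1) := by
      have hLT : L ≤ T := by
        have := Real.log_le_sub_one_of_pos hT0
        linarith
      have hdvT : dv (d1 * x) ≤ T := le_trans (dv_le _) (by linarith)
      calc |c T (d1 * x)| ≤ Kc * L ^ Kc * dv (d1 * x) ^ Kc := hcb
        _ ≤ T * T ^ Kc * T ^ Kc := by
            refine mul_le_mul (mul_le_mul hTKc (pow_le_pow_left₀ hL0.le hLT _) (by positivity)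
              hT0.le) (pow_le_pow_left₀ (dv_nonneg _) hdvT _) (pow_nonneg (dv_nonneg _) _)
              (by positivity)
        _ = T ^ (2 * Kc + 1) := by ring
    have hX0 : 0 ≤ 1000 * T / ((d : ℝ) * x / ((q * s : ℕ) : ℝ)) * P := by positivity
    calc |c T (d1 * x)| * ‖∑ z ∈ Finset.Ioc 0 (⌊T ^ 2⌋₊ / (d * x)),
          (((ρ (d2 * z) : ℝ) : ℂ) * ψ (z : ZMod q)) *
            ((wt j T ((d : ℝ) * x / ((q * s : ℕ) : ℝ) * z) : ℝ) : ℂ)‖
        ≤ |c T (d1 * x)| * (1000 * T / ((d : ℝ) * x / ((q * s : ℕ) : ℝ)) * P + R) :=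
          mul_le_mul_of_nonneg_left hin (abs_nonneg _)
      _ = |c T (d1 * x)| * (1000 * T / ((d : ℝ) * x / ((q * s : ℕ) : ℝ)) * P) +
          |c T (d1 * x)| * R := by ring
      _ ≤ Kc * L ^ Kc * dv s ^ Kc * dv x ^ Kc *
            (1000 * T / ((d : ℝ) * x / ((q * s : ℕ) : ℝ)) * P) + T ^ (2 * Kc + 1) * R :=
          add_le_add (mul_le_mul_of_nonneg_right hb1 hX0) (mul_le_mul_of_nonneg_right hb2 hR0)
      _ = W * (dv x ^ Kc / x) + T ^ (2 * Kc + 1) * R := by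
          rw [hW]
          push_cast
          field_simp
  have hfloor1 : 1 ≤ ⌊T⌋₊ := (Nat.one_le_floor_iff _).2 (by linarith)
  have hsumx : ∀ d1 ∈ d.divisors, ∑ x ∈ Finset.Icc 1 ⌊T⌋₊,
      |c T (d1 * x)| * ‖∑ z ∈ Finset.Ioc 0 (⌊T ^ 2⌋₊ / (d * x)),
        (((ρ (d / d1 * z) : ℝ) : ℂ) * ψ (z : ZMod q)) *
          ((wt j T ((d : ℝ) * x / ((q * s : ℕ) : ℝ) * z) : ℝ) : ℂ)‖ ≤
      W * (2 * L) ^ Ec + T ^ (2 * Kc + 2) * R := by
    intro d1 hd1m
    refine le_trans (Finset.sum_le_sum (hx d1 hd1m)) ?_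
    rw [Finset.sum_add_distrib, ← Finset.mul_sum, Finset.sum_const, Nat.card_Icc,
      Nat.add_sub_cancel, nsmul_eq_mul]
    have e1 : ∑ x ∈ Finset.Icc 1 ⌊T⌋₊, dv x ^ Kc / x ≤ (2 * L) ^ Ec := by
      refine le_trans (hdiv.2.2.1 Kc ⌊T⌋₊ hfloor1) ?_
      rw [← hEc]
      have hf0 : (1 : ℝ) ≤ (⌊T⌋₊ : ℝ) := by exact_mod_cast hfloor1
      have h5 : Real.log (⌊T⌋₊ : ℝ) ≤ L :=
        Real.log_le_log (by linarith) (Nat.floor_le hT0.le)
      have h6 : 0 ≤ Real.log (⌊T⌋₊ : ℝ) := Real.log_nonneg hf0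
      exact pow_le_pow_left₀ (by linarith) (by linarith) _
    have e2 : (⌊T⌋₊ : ℝ) * (T ^ (2 * Kc + 1) * R) ≤ T ^ (2 * Kc + 2) * R := by
      calc (⌊T⌋₊ : ℝ) * (T ^ (2 * Kc + 1) * R) ≤ T * (T ^ (2 * Kc + 1) * R) :=
            mul_le_mul_of_nonneg_right (Nat.floor_le hT0.le) (by positivity)
        _ = T ^ (2 * Kc + 2) * R := by ring
    have e3 := mul_le_mul_of_nonneg_left e1 hW0
    linarith
  have htot : ‖VV j T (ρ * c T) (q * s) d ψ‖ ≤
      dv s * (W * (2 * L) ^ Ec + T ^ (2 * Kc + 2) * R) := by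
    refine le_trans hVV (le_trans (Finset.sum_le_sum hsumx) ?_)
    rw [Finset.sum_const, nsmul_eq_mul]
    have hb0 : 0 ≤ W * (2 * L) ^ Ec + T ^ (2 * Kc + 2) * R := by positivity
    exact mul_le_mul_of_nonneg_right (dv_le_of_dvd d s hs1 hds) hb0
  refine le_trans htot ?_
  -- final numerical step
  have hR2 : T ^ (2 * Kc + 2) * R = 2 / T ^ 2 := by
    rw [hR, hn0]
    have e : T ^ (2 * Kc + 7 * Kt + 10) = T ^ (2 * Kc + 2) * T ^ 3 * T ^ (7 * Kt + 3) * T ^ 2 := by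
      ring
    rw [e]
    field_simp
  have hsd : 1 ≤ (s : ℝ) / d := by
    rw [le_div_iff₀ hd0R, one_mul]
    exact_mod_cast Nat.le_of_dvd hs1 hds
  have hfirst : W * (2 * L) ^ Ec ≤ 1 / 2 * (T * ((s : ℝ) / d) * dv s ^ (Kr + Kc) / L ^ B) := by
    have e1 : W * (2 * L) ^ Ec = T * ((s : ℝ) / d) * dv s ^ (Kr + Kc) * (G * q *
        (L ^ (M + Kc + Ec) / L ^ B')) := by
      rw [hW, hP, hD, hG, mul_pow κ L, mul_pow 2 L]
      field_simp
      ring
    rw [e1]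
    have e2 : G * q * (L ^ (M + Kc + Ec) / L ^ B') ≤ 1 / 2 / L ^ B := by
      have e3 : L ^ B' = L ^ (M + Kc + Ec) * (L ^ A * L ^ B * L) := by
        rw [hB']; ring
      rw [e3]
      calc G * q * (L ^ (M + Kc + Ec) / (L ^ (M + Kc + Ec) * (L ^ A * L ^ B * L)))
          = G / L * (q / L ^ A) / L ^ B := by field_simp
        _ ≤ 1 / 2 * 1 / L ^ B := by
            apply div_le_div_of_nonneg_right _ (by positivity)
            apply mul_le_mul _ _ (by positivity) (by norm_num)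
            · rw [div_le_iff₀ hL0]; linarith [h3.2]
            · rw [div_le_one (by positivity)]; exact hqA
        _ = 1 / 2 / L ^ B := by ring
    calc T * ((s : ℝ) / d) * dv s ^ (Kr + Kc) * (G * q * (L ^ (M + Kc + Ec) / L ^ B'))
        ≤ T * ((s : ℝ) / d) * dv s ^ (Kr + Kc) * (1 / 2 / L ^ B) :=
          mul_le_mul_of_nonneg_left e2 (by positivity)
      _ = 1 / 2 * (T * ((s : ℝ) / d) * dv s ^ (Kr + Kc) / L ^ B) := by ring
  have hsecond : 2 / T ^ 2 ≤ 1 / 2 * (T * ((s : ℝ) / d) * dv s ^ (Kr + Kc) / L ^ B) := by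
    have e1 : 2 / T ^ 2 ≤ 1 / 2 * (T / L ^ B) := by
      have h5 : T ≤ T * T ^ 2 := le_mul_of_one_le_right hT0.le (by nlinarith)
      rw [div_le_iff₀ (by positivity)]
      have h6 : 1 / 2 * (T / L ^ B) * T ^ 2 = (T * T ^ 2) / (2 * L ^ B) := by field_simp
      rw [h6, le_div_iff₀ (by positivity)]
      linarith
    refine le_trans e1 ?_
    apply mul_le_mul_of_nonneg_left _ (by norm_num)
    apply div_le_div_of_nonneg_right _ (by positivity)
    have h7 : 1 ≤ dv s ^ (Kr + Kc) := one_le_pow₀ hdvs1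
    calc T = T * 1 * 1 := by ring
      _ ≤ T * ((s : ℝ) / d) * dv s ^ (Kr + Kc) := by
          apply mul_le_mul _ h7 (by norm_num) (by positivity)
          exact mul_le_mul_of_nonneg_left hsd hT0.le
  rw [hR2]
  calc dv s * (W * (2 * L) ^ Ec + 2 / T ^ 2)
      ≤ dv s * (1 / 2 * (T * ((s : ℝ) / d) * dv s ^ (Kr + Kc) / L ^ B) +
          1 / 2 * (T * ((s : ℝ) / d) * dv s ^ (Kr + Kc) / L ^ B)) :=
        mul_le_mul_of_nonneg_left (add_le_add hfirst hsecond) hdvs0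
    _ = T * ((s : ℝ) / d) * dv s ^ (Kr + Kc + 1) / L ^ B := by rw [pow_succ]; ring

end Pool.Agent.Lib.MP_6bc78b_nt.MS.P2.H62
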